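import Mathlib
import Pool.Agent.Helper42.DB.Goals2

set_option autoImplicit false

/-!
# Packet MCM of MP_48f005_an: a near miss of an end point of an arc
-/

namespace Pool.Agent.Helper42.DB.PkMCM

open Set Filter Topology

variable {S : Sys}

lemma dirs (θ s0 : ℝ) (hs0 : s0 = 1 ∨ s0 = -1) :
    ∃ k : ℕ, k < 8 ∧ s0 * cr (ee θ) (ee (k * (Real.pi / 4))) < -1 / 2 := by
  have h0 : cr (ee θ) (ee ((0 : ℕ) * (Real.pi / 4))) = -Real.sin θ := by
    simp [cr]
  have h2 : cr (ee θ) (ee ((2 : ℕ) * (Real.pi / 4))) = Real.cos θ := by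
    have : ((2 : ℕ) : ℝ) * (Real.pi / 4) = Real.pi / 2 := by push_cast; ring
    rw [this]; simp [cr]
  have h4 : cr (ee θ) (ee ((4 : ℕ) * (Real.pi / 4))) = Real.sin θ := by
    have : ((4 : ℕ) : ℝ) * (Real.pi / 4) = Real.pi := by push_cast; ring
    rw [this]; simp [cr]
  have h6 : cr (ee θ) (ee ((6 : ℕ) * (Real.pi / 4))) = -Real.cos θ := by
    have : ((6 : ℕ) : ℝ) * (Real.pi / 4) = Real.pi / 2 + Real.pi := by push_cast; ring
    rw [this, ee_add_pi, cr_neg_right]; simp [cr]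
  have hsq := Real.sin_sq_add_cos_sq θ
  by_contra hcon
  push Not at hcon
  have a0 := hcon 0 (by norm_num)
  have a2 := hcon 2 (by norm_num)
  have a4 := hcon 4 (by norm_num)
  have a6 := hcon 6 (by norm_num)
  rw [h0] at a0
  rw [h2] at a2
  rw [h4] at a4
  rw [h6] at a6
  rcases hs0 with rfl | rfl <;> nlinarith

/-- Decomposition of a vector in the basis `ee θ`, `tt θ`. -/
lemma decomp (θ : ℝ) (v : ℂ) : v = dt (ee θ) v • ee θ + cr (ee θ) v • tt θ := by
  have h := Real.sin_sq_add_cos_sq θ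
  apply Complex.ext
  · simp only [dt, cr, ee_re, ee_im, tt_re, Complex.add_re, Complex.smul_re, smul_eq_mul]
    linear_combination -v.re * h
  · simp only [dt, cr, ee_re, ee_im, tt_im, Complex.add_im, Complex.smul_im, smul_eq_mul]
    linear_combination -v.im * h

lemma seg {x y : St S} (h : Fl x y) {X : ℂ} (h0 : cr (ee x.th) (X - x.pos) = 0)
    (h1 : 0 < dt (ee x.th) (X - x.pos)) (h2 : 0 < dt (ee x.th) (y.pos - X)) :
    X ∈ openSegment ℝ x.pos y.pos ∧ X ∈ S.Y := by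
  obtain ⟨-, -, -, t, ht, hp, hs⟩ := h
  set s := dt (ee x.th) (X - x.pos) with hsdef
  have hX : X = x.pos + s • ee x.th := by
    have := decomp x.th (X - x.pos)
    rw [h0, zero_smul, add_zero, ← hsdef] at this
    rw [← this]; ring
  have hst : s < t := by
    have e : y.pos - X = (t - s) • ee x.th := by
      rw [hp, hX, sub_smul]; ring
    rw [e, dt_smul_right, dt_self, norm_ee] at h2
    linarith
  refine ⟨?_, ?_⟩
  · rw [openSegment_eq_image']
    refine ⟨s / t, ⟨div_pos h1 ht, (div_lt_one ht).mpr hst⟩, ?_⟩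
    show x.pos + (s / t) • (y.pos - x.pos) = X
    rw [hp, add_sub_cancel_left, smul_smul, div_mul_cancel₀ _ ht.ne', ← hX]
  · rw [hX]
    exact hs s ⟨h1, hst⟩

lemma between {f : ℝ → ℝ} (h : MonotoneOn f (Icc 0 1) ∨ AntitoneOn f (Icc 0 1)) {l : ℝ}
    (hl : l ∈ Icc (0 : ℝ) 1) {c ε : ℝ} (h0 : |f 0 - c| < ε) (h1 : |f 1 - c| < ε) :
    |f l - c| < ε := by
  rw [abs_lt] at h0 h1 ⊢
  have z : (0 : ℝ) ∈ Icc (0 : ℝ) 1 := ⟨le_rfl, zero_le_one⟩
  have o : (1 : ℝ) ∈ Icc (0 : ℝ) 1 := ⟨zero_le_one, le_rfl⟩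
  rcases h with h | h
  · have e1 := h z hl hl.1
    have e2 := h hl o hl.2
    constructor <;> linarith
  · have e1 := h z hl hl.1
    have e2 := h hl o hl.2
    constructor <;> linarith

/-- The box. -/
def InB (a : ℕ) (u0 θ u1 ε : ℝ) (z : ℕ → St S) : Prop :=
  |(z a).u - u0| < ε ∧ |(z a).th - θ| < ε ∧ |(z (a + 1)).u - u1| < ε

lemma ivt (hC : G_CONN S) {a : ℕ} {w : ℕ → S.ι} {u0 θ u1 ε s0 : ℝ} {z z' : ℕ → St S}
    (hz : Cyl (2 * a + 1) w z) (hz' : Cyl (2 * a + 1) w z')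
    (hb : InB a u0 θ u1 ε z) (hb' : InB a u0 θ u1 ε z') (X : ℂ)
    (h1 : s0 * cr (ee (z a).th) (X - (z a).pos) ≤ 0)
    (h2 : 0 ≤ s0 * cr (ee (z' a).th) (X - (z' a).pos)) :
    ∃ z'' : ℕ → St S, Cyl (2 * a + 1) w z'' ∧ InB a u0 θ u1 ε z'' ∧
      s0 * cr (ee (z'' a).th) (X - (z'' a).pos) = 0 := by
  obtain ⟨Z, hZ, hends, hfam⟩ := hC (2 * a + 1) w z z' (by omega) hz hz'
  have e0 := (hends a (by omega)).1
  have e1 := (hends a (by omega)).2
  have e0' := (hends (a + 1) (by omega)).1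
  have e1' := (hends (a + 1) (by omega)).2
  obtain ⟨f1, f2, f3⟩ := hfam a (by omega)
  obtain ⟨f1', f2', -⟩ := hfam (a + 1) (by omega)
  have hth : ContinuousOn (fun l => (Z l a).th) (Icc 0 1) := f1.cu.add f1.cφ
  have hpos : ContinuousOn (fun l => (Z l a).pos) (Icc 0 1) := by
    have : ContinuousOn (fun l => S.g (w a) (Z l a).u) (Icc 0 1) :=
      (Crv.continuous (S.crv (w a))).comp_continuousOn f1.cu
    refine this.congr ?_
    intro l hl
    show S.g (Z l a).i (Z l a).u = _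
    rw [f1.arc l hl]
  have hcont : ContinuousOn (fun l => s0 * cr (ee (Z l a).th) (X - (Z l a).pos)) (Icc 0 1) := by
    have c1 : ContinuousOn (fun l => ee (Z l a).th) (Icc 0 1) :=
      continuous_ee.comp_continuousOn hth
    have c2 : Continuous (fun p : ℂ × ℂ => s0 * cr p.1 (X - p.2)) :=
      continuous_const.mul (continuous_cr continuous_fst (continuous_const.sub continuous_snd))
    exact c2.comp_continuousOn (c1.prodMk hpos)
  have hmem : (0 : ℝ) ∈ Icc ((fun l => s0 * cr (ee (Z l a).th) (X - (Z l a).pos)) 0)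
      ((fun l => s0 * cr (ee (Z l a).th) (X - (Z l a).pos)) 1) := by
    simp only [e0, e1]
    exact ⟨h1, h2⟩
  obtain ⟨l, hl, hl0⟩ := intermediate_value_Icc zero_le_one hcont hmem
  refine ⟨Z l, hZ l hl, ⟨?_, ?_, ?_⟩, hl0⟩
  · refine between (f := fun l => (Z l a).u) f2 hl ?_ ?_
    · simp only [e0]; exact hb.1
    · simp only [e1]; exact hb'.1
  · refine between (f := fun l => (Z l a).th) (f3 (by omega)) hl ?_ ?_
    · simp only [e0]; exact hb.2.1
    · simp only [e1]; exact hb'.2.1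
  · refine between (f := fun l => (Z l (a + 1)).u) f2' hl ?_ ?_
    · simp only [e0']; exact hb.2.2
    · simp only [e1']; exact hb'.2.2

lemma box_ev {gA gB : ℝ → ℂ} (hA : Continuous gA) (hB : Continuous gB) {u0 θ u1 : ℝ} {P : ℂ}
    (o1 : 0 < dt (ee θ) (P - gA u0)) (o2 : 0 < dt (ee θ) (gB u1 - P)) {v1 v2 : ℂ}
    (o3 : 1 * cr (ee θ) v1 < -1 / 2) (o4 : (-1) * cr (ee θ) v2 < -1 / 2) :
    ∀ᶠ p : (ℝ × ℝ × ℝ × ℂ) in 𝓝 (u0, θ, u1, P),
      0 < dt (ee p.2.1) (p.2.2.2 - gA p.1) ∧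
      0 < dt (ee p.2.1) (gB p.2.2.1 - p.2.2.2) ∧
      1 * cr (ee p.2.1) v1 < -1 / 2 ∧
      (-1) * cr (ee p.2.1) v2 < -1 / 2 := by
  have e1 : Continuous (fun p : (ℝ × ℝ × ℝ × ℂ) => ee p.2.1) :=
    continuous_ee.comp (continuous_fst.comp continuous_snd)
  have e2 : Continuous (fun p : (ℝ × ℝ × ℝ × ℂ) => p.2.2.2) :=
    continuous_snd.comp (continuous_snd.comp continuous_snd)
  have e3 : Continuous (fun p : (ℝ × ℝ × ℝ × ℂ) => gA p.1) := hA.comp continuous_fst
  have e4 : Continuous (fun p : (ℝ × ℝ × ℝ × ℂ) => gB p.2.2.1) :=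
    hB.comp (continuous_fst.comp (continuous_snd.comp continuous_snd))
  have c1 : Continuous (fun p : (ℝ × ℝ × ℝ × ℂ) => dt (ee p.2.1) (p.2.2.2 - gA p.1)) :=
    continuous_dt e1 (e2.sub e3)
  have c2 : Continuous (fun p : (ℝ × ℝ × ℝ × ℂ) => dt (ee p.2.1) (gB p.2.2.1 - p.2.2.2)) :=
    continuous_dt e1 (e4.sub e2)
  have c3 : Continuous (fun p : (ℝ × ℝ × ℝ × ℂ) => 1 * cr (ee p.2.1) v1) :=
    continuous_const.mul (continuous_cr e1 continuous_const)
  have c4 : Continuous (fun p : (ℝ × ℝ × ℝ × ℂ) => (-1) * cr (ee p.2.1) v2) :=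
    continuous_const.mul (continuous_cr e1 continuous_const)
  have n1 := (c1.tendsto (u0, θ, u1, P)).eventually (lt_mem_nhds o1)
  have n2 := (c2.tendsto (u0, θ, u1, P)).eventually (lt_mem_nhds o2)
  have n3 := (c3.tendsto (u0, θ, u1, P)).eventually (gt_mem_nhds o3)
  have n4 := (c4.tendsto (u0, θ, u1, P)).eventually (gt_mem_nhds o4)
  filter_upwards [n1, n2, n3, n4] with p h1 h2 h3 h4
  exact ⟨h1, h2, h3, h4⟩

theorem thm (S : Sys) : G_CONN S → G_MCM S := by
  intro hC a w l v hal hbl hv hlim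
  obtain ⟨m, u0, u1, φ0, φ1, hm, hu0, hu1, -, -, tu0, tφ0, tu1, -, hseg⟩ := hlim
  have hvI : v ∈ Icc (S.a l) (S.b l) := by
    rcases hv with rfl | rfl
    · exact ⟨le_rfl, (S.hab l).le⟩
    · exact ⟨(S.hab l).le, le_rfl⟩
  set P := S.g l v with hP
  set A := S.g (w a) u0 with hA
  set B := S.g (w (a + 1)) u1 with hB
  set θ := u0 + φ0 with hθ
  have hAP : A ≠ P := fun h => hal (S.inj (w a) l u0 hu0 v hvI h).1
  have hBP : B ≠ P := fun h => hbl (S.inj (w (a + 1)) l u1 hu1 v hvI h).1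
  have hseg' : P ∈ openSegment ℝ A B := mem_openSegment_of_ne_left_right hAP hBP hseg
  have hPY : P ∉ S.Y := S.out l v hvI
  -- limits
  have tθ : Tendsto (fun q => (m q a).th) atTop (𝓝 θ) := tu0.add tφ0
  have tA : Tendsto (fun q => (m q a).pos) atTop (𝓝 A) := by
    have h1 : Tendsto (fun q => S.g (w a) (m q a).u) atTop (𝓝 A) :=
      ((Crv.continuous (S.crv (w a))).tendsto u0).comp tu0
    refine h1.congr fun q => ?_
    show _ = S.g (m q a).i (m q a).u
    rw [(hm q).2 a (by omega)]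
  have tB : Tendsto (fun q => (m q (a + 1)).pos) atTop (𝓝 B) := by
    have h1 : Tendsto (fun q => S.g (w (a + 1)) (m q (a + 1)).u) atTop (𝓝 B) :=
      ((Crv.continuous (S.crv (w (a + 1)))).tendsto u1).comp tu1
    refine h1.congr fun q => ?_
    show _ = S.g (m q (a + 1)).i (m q (a + 1)).u
    rw [(hm q).2 (a + 1) (by omega)]
  have tee : Tendsto (fun q => ee (m q a).th) atTop (𝓝 (ee θ)) :=
    (continuous_ee.tendsto θ).comp tθ
  have hAB : B = A + ‖B - A‖ • ee θ := by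
    have h1 : Tendsto (fun q => (m q a).pos + ‖(m q (a + 1)).pos - (m q a).pos‖ • ee (m q a).th)
        atTop (𝓝 (A + ‖B - A‖ • ee θ)) := tA.add ((tB.sub tA).norm.smul tee)
    have h2 : Tendsto (fun q => (m q a).pos + ‖(m q (a + 1)).pos - (m q a).pos‖ • ee (m q a).th)
        atTop (𝓝 B) := by
      refine tB.congr fun q => ?_
      exact ((hm q).1.2 a (by omega)).length.2
    exact tendsto_nhds_unique h2 h1
  set T := ‖B - A‖ with hT
  obtain ⟨s, hs, hsP⟩ : ∃ s ∈ Ioo (0 : ℝ) T, P = A + s • ee θ := by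
    rw [openSegment_eq_image'] at hseg'
    obtain ⟨c, hc, hcP⟩ := hseg'
    have hTpos : 0 < T := by
      rcases (norm_nonneg (B - A)).lt_or_eq with h | h
      · exact h
      · exfalso
        have : B - A = 0 := norm_eq_zero.mp h.symm
        apply hAP
        rw [← hcP, this]; simp
    refine ⟨c * T, ⟨mul_pos hc.1 hTpos, by nlinarith [hc.2]⟩, ?_⟩
    have hBA : B - A = T • ee θ := sub_eq_iff_eq_add'.mpr hAB
    have hcP' : A + c • (B - A) = P := hcP
    rw [← hcP', mul_smul, hBA]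
  -- the box
  have o1 : 0 < dt (ee θ) (P - A) := by
    rw [hsP, add_sub_cancel_left, dt_smul_right, dt_self, norm_ee]; linarith [hs.1]
  have o2 : 0 < dt (ee θ) (B - P) := by
    have : B - P = (T - s) • ee θ := by rw [hsP, sub_smul]; nth_rewrite 1 [hAB]; ring
    rw [this, dt_smul_right, dt_self, norm_ee]; linarith [hs.2]
  obtain ⟨k1, hk1, hk1'⟩ := dirs θ 1 (Or.inl rfl)
  obtain ⟨k2, hk2, hk2'⟩ := dirs θ (-1) (Or.inr rfl)
  have gA : Continuous (S.g (w a)) := Crv.continuous (S.crv (w a))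
  have gB : Continuous (S.g (w (a + 1))) := Crv.continuous (S.crv (w (a + 1)))
  have ev := box_ev gA gB o1 o2 hk1' hk2'
  obtain ⟨ε, hε, hball⟩ := Metric.eventually_nhds_iff.mp ev
  have key : ∀ z : ℕ → St S, Cyl (2 * a + 1) w z → InB a u0 θ u1 ε z → ∀ X : ℂ, ‖X - P‖ < ε →
      0 < dt (ee (z a).th) (X - (z a).pos) ∧ 0 < dt (ee (z a).th) ((z (a + 1)).pos - X) ∧
      1 * cr (ee (z a).th) (ee (k1 * (Real.pi / 4))) < -1 / 2 ∧
      (-1) * cr (ee (z a).th) (ee (k2 * (Real.pi / 4))) < -1 / 2 := by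
    intro z hz hb X hX
    have h := @hball ((z a).u, (z a).th, (z (a + 1)).u, X) (by
      rw [Prod.dist_eq, Prod.dist_eq, Prod.dist_eq]
      simp only [dist_eq_norm]
      refine max_lt hb.1 (max_lt hb.2.1 (max_lt hb.2.2 hX)))
    simp only at h
    have p1 : (z a).pos = S.g (w a) (z a).u := by
      show S.g (z a).i (z a).u = _
      rw [hz.2 a (by omega)]
    have p2 : (z (a + 1)).pos = S.g (w (a + 1)) (z (a + 1)).u := by
      show S.g (z (a + 1)).i (z (a + 1)).u = _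
      rw [hz.2 (a + 1) (by omega)]
    rw [p1, p2]
    exact h
  have hfl : ∀ z : ℕ → St S, Cyl (2 * a + 1) w z → Fl (z a) (z (a + 1)) :=
    fun z hz => hz.1.2 a (by omega)
  have hmid : ∀ z : ℕ → St S, Cyl (2 * a + 1) w z → InB a u0 θ u1 ε z →
      cr (ee (z a).th) (P - (z a).pos) ≠ 0 := by
    intro z hz hb h0
    have hk := key z hz hb P (by simpa using hε)
    exact hPY (seg (hfl z hz) h0 hk.1 hk.2.1).2
  -- eventually in the box
  have evb : ∀ᶠ q in atTop, InB a u0 θ u1 ε (m q) := by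
    have e1 := (Metric.tendsto_nhds.mp tu0) ε hε
    have e2 := (Metric.tendsto_nhds.mp tθ) ε hε
    have e3 := (Metric.tendsto_nhds.mp tu1) ε hε
    filter_upwards [e1, e2, e3] with q h1 h2 h3
    exact ⟨h1, h2, h3⟩
  obtain ⟨q0, hq0⟩ := evb.exists
  have tσ : Tendsto (fun q => cr (ee (m q a).th) (P - (m q a).pos)) atTop (𝓝 0) := by
    have c2 : Continuous (fun p : ℂ × ℂ => cr p.1 (P - p.2)) :=
      continuous_cr continuous_fst (continuous_const.sub continuous_snd)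
    have h := (c2.tendsto (ee θ, A)).comp (tee.prodMk_nhds tA)
    have e : cr (ee θ) (P - A) = 0 := by
      rw [hsP, add_sub_cancel_left, cr_smul_right, cr_self, mul_zero]
    simpa [e, Function.comp_def] using h
  -- the main argument for a given sign
  have main : ∀ (s0 : ℝ) (k : ℕ), (s0 = 1 ∨ s0 = -1) → k < 8 →
      (∀ z : ℕ → St S, Cyl (2 * a + 1) w z → InB a u0 θ u1 ε z →
        s0 * cr (ee (z a).th) (ee (k * (Real.pi / 4))) < -1 / 2) →
      0 < s0 * cr (ee (m q0 a).th) (P - (m q0 a).pos) →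
      ∃ (k : ℕ) (t1 : ℝ), k < 8 ∧ 0 < t1 ∧ ∀ t ∈ Ioo 0 t1, ∃ z : ℕ → St S,
        Cyl (2 * a + 1) w z ∧
        S.g l v + t • ee (k * (Real.pi / 4)) ∈ openSegment ℝ (z a).pos (z (a + 1)).pos := by
    intro s0 k hs0 hk hdir hpos
    have hs0' : |s0| = 1 := by rcases hs0 with rfl | rfl <;> simp
    set σ0 := s0 * cr (ee (m q0 a).th) (P - (m q0 a).pos) with hσ0
    refine ⟨k, min σ0 ε, hk, lt_min hpos hε, fun t ht => ?_⟩
    have ht0 : 0 < t := ht.1
    have ht1 : t < σ0 := lt_of_lt_of_le ht.2 (min_le_left _ _)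
    have ht2 : t < ε := lt_of_lt_of_le ht.2 (min_le_right _ _)
    set X := P + t • ee (k * (Real.pi / 4)) with hX
    have hXP : ‖X - P‖ < ε := by
      rw [hX, add_sub_cancel_left, norm_smul, norm_ee, mul_one, Real.norm_eq_abs,
        abs_of_pos ht0]
      exact ht2
    have expand : ∀ z : ℕ → St S, s0 * cr (ee (z a).th) (X - (z a).pos) =
        s0 * cr (ee (z a).th) (P - (z a).pos) +
          t * (s0 * cr (ee (z a).th) (ee (k * (Real.pi / 4)))) := by
      intro z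
      have : X - (z a).pos = (P - (z a).pos) + t • ee (k * (Real.pi / 4)) := by rw [hX]; ring
      rw [this, cr_add_right, cr_smul_right]; ring
    have hp' : 0 ≤ s0 * cr (ee (m q0 a).th) (X - (m q0 a).pos) := by
      rw [expand]
      have h1 : |s0 * cr (ee (m q0 a).th) (ee (k * (Real.pi / 4)))| ≤ 1 := by
        rw [abs_mul, hs0', one_mul]
        refine (abs_cr_le _ _).trans ?_
        rw [norm_ee, norm_ee, mul_one]
      have h2 := (abs_le.mp h1).1
      nlinarith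
    -- a state with negative value
    have e1 : ∀ᶠ q in atTop, |cr (ee (m q a).th) (P - (m q a).pos)| < t / 2 := by
      have := (Metric.tendsto_nhds.mp tσ) (t / 2) (by linarith)
      simpa [Real.dist_eq] using this
    obtain ⟨q, hqb, hqs⟩ := (evb.and e1).exists
    have hn' : s0 * cr (ee (m q a).th) (X - (m q a).pos) ≤ 0 := by
      rw [expand]
      have h1 := hdir (m q) (hm q) hqb
      have h2 : s0 * cr (ee (m q a).th) (P - (m q a).pos) < t / 2 := by
        refine lt_of_le_of_lt (le_abs_self _) ?_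
        rw [abs_mul, hs0', one_mul]
        exact hqs
      nlinarith
    obtain ⟨z, hz, hzb, hz0⟩ := ivt hC (hm q) (hm q0) hqb hq0 X hn' hp'
    have hz0' : cr (ee (z a).th) (X - (z a).pos) = 0 := by
      rcases mul_eq_zero.mp hz0 with h | h
      · rw [h] at hs0'; simp at hs0'
      · exact h
    have hk' := key z hz hzb X hXP
    exact ⟨z, hz, (seg (hfl z hz) hz0' hk'.1 hk'.2.1).1⟩
  rcases lt_or_gt_of_ne (hmid (m q0) (hm q0) hq0) with h | h
  · refine main (-1) k2 (Or.inr rfl) hk2 (fun z hz hb => ?_) (by linarith)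
    exact (key z hz hb P (by simpa using hε)).2.2.2
  · refine main 1 k1 (Or.inl rfl) hk1 (fun z hz hb => ?_) (by linarith)
    exact (key z hz hb P (by simpa using hε)).2.2.1

end Pool.Agent.Helper42.DB.PkMCM
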