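import Mathlib
import Pool.Agent.Helper42.DB.Goals3

set_option autoImplicit false

/-!
# Packet PERFIN of MP_48f005_an: finitely many periodic orbits of each period
-/

namespace Pool.Agent.Helper42.DB.PkPERFIN

open Set Filter Topology

/-- A strictly convex curve is strictly behind its tangent (small arcs). -/
lemma behind (c : Crv) (hR : ∀ u, 0 < c.R u) {u v : ℝ} (h : |v - u| < 1 / 4) (hne : v ≠ u) :
    dt (ee u) (c.G v) < dt (ee u) (c.G u) := by
  have hd : ∀ t, HasDerivAt (fun t => dt (ee u) (c.G t)) (-(c.R t * Real.sin (t - u))) t := by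
    intro t
    have h1 : HasDerivAt (fun t => (c.G t).re) ((c.R t : ℝ) • tt t).re t :=
      Complex.reCLM.hasFDerivAt.comp_hasDerivAt t (c.der t)
    have h2 : HasDerivAt (fun t => (c.G t).im) ((c.R t : ℝ) • tt t).im t :=
      Complex.imCLM.hasFDerivAt.comp_hasDerivAt t (c.der t)
    have h3 := (h1.const_mul (ee u).re).add (h2.const_mul (ee u).im)
    refine h3.congr_deriv ?_
    have h4 : (ee u).re * ((c.R t : ℝ) • tt t).re + (ee u).im * ((c.R t : ℝ) • tt t).im =
        dt (ee u) ((c.R t : ℝ) • tt t) := rfl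
    rw [h4, dt_smul_right, dt_ee_tt]; ring
  have hcont : Continuous (fun t => dt (ee u) (c.G t)) :=
    continuous_dt continuous_const c.continuous
  have hpi := Real.pi_gt_three
  rw [abs_lt] at h
  rcases lt_or_gt_of_ne hne with hlt | hgt
  · have hm : StrictMonoOn (fun t => dt (ee u) (c.G t)) (Icc v u) := by
      refine strictMonoOn_of_deriv_pos (convex_Icc v u) hcont.continuousOn ?_
      intro x hx
      rw [interior_Icc] at hx
      rw [(hd x).deriv]
      have hs : Real.sin (x - u) < 0 :=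
        Real.sin_neg_of_neg_of_neg_pi_lt (by linarith [hx.2]) (by linarith [hx.1])
      nlinarith [hR x]
    exact hm ⟨le_rfl, hlt.le⟩ ⟨hlt.le, le_rfl⟩ hlt
  · have hm : StrictAntiOn (fun t => dt (ee u) (c.G t)) (Icc u v) := by
      refine strictAntiOn_of_deriv_neg (convex_Icc u v) hcont.continuousOn ?_
      intro x hx
      rw [interior_Icc] at hx
      rw [(hd x).deriv]
      have hs : 0 < Real.sin (x - u) :=
        Real.sin_pos_of_pos_of_lt_pi (by linarith [hx.1]) (by linarith [hx.2])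
      nlinarith [hR x]
    exact hm ⟨le_rfl, hgt.le⟩ ⟨hgt.le, le_rfl⟩ hgt

lemma eq_of_dt_one {v v' : ℂ} (h : ‖v‖ = 1) (h' : ‖v'‖ = 1) (hd : dt v v' = 1) : v = v' := by
  have h1 : dt (v - v') (v - v') = 0 := by
    rw [dt_sub_left, dt_sub_right, dt_sub_right, dt_self, dt_self, h, h', dt_comm v' v, hd]
    norm_num
  rw [dt_self] at h1
  have h2 : ‖v - v'‖ = 0 := by simpa using h1
  exact sub_eq_zero.mp (norm_eq_zero.mp h2)

/-- Two periodic billiard sequences with bounces on the same small arcs meet. -/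
lemma meet (q v N q' v' N' : ℕ → ℂ) (τ τ' : ℕ → ℝ)
    (hv : ∀ k, ‖v k‖ = 1) (hv' : ∀ k, ‖v' k‖ = 1)
    (hτ : ∀ k, 0 < τ k) (hτ' : ∀ k, 0 < τ' k)
    (hq : ∀ k, q (k + 1) = q k + τ k • v k) (hq' : ∀ k, q' (k + 1) = q' k + τ' k • v' k)
    (hc : ∀ k, dt (v k) (N (k + 1)) ≤ 0) (hc' : ∀ k, dt (v' k) (N' (k + 1)) ≤ 0)
    (hr : ∀ k, v (k + 1) = v k - (2 * dt (v k) (N (k + 1))) • N (k + 1))
    (hr' : ∀ k, v' (k + 1) = v' k - (2 * dt (v' k) (N' (k + 1))) • N' (k + 1))
    (hb : ∀ k, 0 ≤ dt (N k) (q k - q' k)) (hb' : ∀ k, 0 ≤ dt (N' k) (q' k - q k))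
    (hb0 : ∀ k, dt (N k) (q k - q' k) = 0 → q k = q' k)
    (p : ℕ) (hp : 0 < p) (pq : ∀ k, q (k + p) = q k) (pv : ∀ k, v (k + p) = v k)
    (pq' : ∀ k, q' (k + p) = q' k) (pv' : ∀ k, v' (k + p) = v' k) :
    ∃ k, q k = q' k ∧ v k = v' k := by
  set E : ℕ → ℝ := fun k => dt (v' k - v k) (q' k - q k) with hE
  have hstep : ∀ k, E (k + 1) = E k + (τ k + τ' k) * (1 - dt (v k) (v' k)) +
      (-2 * dt (v' k) (N' (k + 1))) * dt (N' (k + 1)) (q' (k + 1) - q (k + 1)) +
      (-2 * dt (v k) (N (k + 1))) * dt (N (k + 1)) (q (k + 1) - q' (k + 1)) := by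
    intro k
    have a1 : dt (v k) (v k) = 1 := by rw [dt_self, hv]; norm_num
    have a2 : dt (v' k) (v' k) = 1 := by rw [dt_self, hv']; norm_num
    have a3 : E (k + 1) = dt (v' k - v k) (q' (k + 1) - q (k + 1)) +
        (-2 * dt (v' k) (N' (k + 1))) * dt (N' (k + 1)) (q' (k + 1) - q (k + 1)) +
        (-2 * dt (v k) (N (k + 1))) * dt (N (k + 1)) (q (k + 1) - q' (k + 1)) := by
      simp only [hE]
      rw [hr k, hr' k]
      simp only [dt_sub_left, dt_sub_right, dt_smul_left]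
      ring
    have a4 : dt (v' k - v k) (q' (k + 1) - q (k + 1)) =
        E k + (τ k + τ' k) * (1 - dt (v k) (v' k)) := by
      simp only [hE]
      rw [hq k, hq' k]
      simp only [dt_sub_left, dt_sub_right, dt_add_right, dt_smul_right]
      rw [a1, a2, dt_comm (v' k) (v k)]
      ring
    rw [a3, a4]
  have t1 : ∀ k, 0 ≤ (τ k + τ' k) * (1 - dt (v k) (v' k)) := by
    intro k
    have := dt_le (v k) (v' k)
    rw [hv, hv', mul_one] at this
    exact mul_nonneg (by linarith [hτ k, hτ' k]) (by linarith)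
  have t2 : ∀ k, 0 ≤ (-2 * dt (v' k) (N' (k + 1))) * dt (N' (k + 1)) (q' (k + 1) - q (k + 1)) :=
    fun k => mul_nonneg (by linarith [hc' k]) (hb' _)
  have t3 : ∀ k, 0 ≤ (-2 * dt (v k) (N (k + 1))) * dt (N (k + 1)) (q (k + 1) - q' (k + 1)) :=
    fun k => mul_nonneg (by linarith [hc k]) (hb _)
  have hmono : Monotone E := monotone_nat_of_le_succ fun k => by
    linarith [hstep k, t1 k, t2 k, t3 k]
  have hconst : ∀ k, E (k + 1) = E k := by
    intro k
    refine le_antisymm ?_ (hmono (Nat.le_succ k))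
    have h1 : E (k + 1) ≤ E (k + p) := hmono (by omega)
    have h2 : E (k + p) = E k := by simp only [hE]; rw [pq, pv, pq', pv']
    linarith
  have hvv : ∀ k, v k = v' k := by
    intro k
    have h0 : (τ k + τ' k) * (1 - dt (v k) (v' k)) = 0 := by
      linarith [hstep k, t1 k, t2 k, t3 k, hconst k]
    have h1 : dt (v k) (v' k) = 1 := by
      rcases mul_eq_zero.mp h0 with h | h
      · linarith [hτ k, hτ' k]
      · linarith
    exact eq_of_dt_one (hv k) (hv' k) h1
  have hqq : ∀ k, dt (v k) (N (k + 1)) ≠ 0 → q (k + 1) = q' (k + 1) := by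
    intro k hk
    have h0 : (-2 * dt (v k) (N (k + 1))) * dt (N (k + 1)) (q (k + 1) - q' (k + 1)) = 0 := by
      linarith [hstep k, t1 k, t2 k, t3 k, hconst k]
    rcases mul_eq_zero.mp h0 with h | h
    · exact absurd (by linarith) hk
    · exact hb0 _ h
  by_cases hex : ∃ k, dt (v k) (N (k + 1)) ≠ 0
  · obtain ⟨k, hk⟩ := hex
    exact ⟨k + 1, hqq k hk, hvv (k + 1)⟩
  · exfalso
    push Not at hex
    have hv0 : ∀ k, v k = v 0 := by
      intro k
      induction k with
      | zero => rfl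
      | succ k ih => rw [hr k, hex k, mul_zero, zero_smul, sub_zero, ih]
    have hsm : StrictMono (fun k => dt (v 0) (q k)) := strictMono_nat_of_lt_succ fun k => by
      show dt (v 0) (q k) < dt (v 0) (q (k + 1))
      rw [hq k, hv0 k, dt_add_right, dt_smul_right, dt_self, hv 0]
      linarith [hτ k]
    have h1 := hsm hp
    simp only at h1
    have h2 : q p = q 0 := by simpa using pq 0
    rw [h2] at h1
    exact lt_irrefl _ h1

variable {C : CTab}

lemma rp_unique {x N N' : ℂ} (h : (x, N) ∈ C.RP) (h' : (x, N') ∈ C.RP) : N = N' := by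
  obtain ⟨i, u, hu, e⟩ := h
  obtain ⟨j, w, hw, e'⟩ := h'
  have e1 := congrArg Prod.fst e
  have e2 := congrArg Prod.snd e
  have e1' := congrArg Prod.fst e'
  have e2' := congrArg Prod.snd e'
  simp only at e1 e2 e1' e2'
  obtain ⟨hij, huw⟩ := C.simple i j u w hu ⟨hw.1, hw.2.1.le, fun _ => hw.2.1⟩ (e1.symm.trans e1')
  rw [e2, e2', huw]

lemma rp_not_mem {x N : ℂ} (h : (x, N) ∈ C.RP) : x ∉ C.Y := by
  obtain ⟨i, u, hu, e⟩ := h
  have e1 := congrArg Prod.fst e
  simp only at e1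
  have hf : x ∈ frontier C.Y := by
    rw [C.bdry, mem_iUnion]
    exact ⟨i, u, ⟨hu.1, hu.2.1.le⟩, e1.symm⟩
  intro hx
  have := C.isOpen.inter_frontier_eq
  exact (this ▸ (⟨hx, hf⟩ : x ∈ C.Y ∩ frontier C.Y) : x ∈ (∅ : Set ℂ))

lemma det {x y y' : ℂ × ℂ} (h : BStep C.Y C.RP True x y) (h' : BStep C.Y C.RP True x y') :
    y = y' := by
  obtain ⟨-, N, M, τ, -, hM, hτ, hy, hfl, -, -, hr⟩ := h
  obtain ⟨-, N', M', τ', -, hM', hτ', hy', hfl', -, -, hr'⟩ := h'
  have hττ : τ = τ' := by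
    rcases lt_trichotomy τ τ' with h | h | h
    · exfalso
      have := hfl' τ ⟨hτ, h⟩
      rw [← hy] at this
      exact rp_not_mem hM this
    · exact h
    · exfalso
      have := hfl τ' ⟨hτ', h⟩
      rw [← hy'] at this
      exact rp_not_mem hM' this
  subst hττ
  have h1 : y.1 = y'.1 := by rw [hy, hy']
  have hMM : M = M' := by
    rw [← h1] at hM'
    exact rp_unique hM hM'
  subst hMM
  exact Prod.ext h1 (by rw [hr, hr'])

/-- A choice of parameters of the regular boundary points. -/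
def Par (C : CTab) (pr : ℂ → C.ι × ℝ) : Prop := ∀ x N : ℂ, (x, N) ∈ C.RP →
  C.A (pr x).1 ≤ (pr x).2 ∧ (pr x).2 < C.B (pr x).1 ∧ x = C.g (pr x).1 (pr x).2 ∧
    N = ee (pr x).2

lemma exists_par [Nonempty C.ι] : ∃ pr : ℂ → C.ι × ℝ, Par C pr := by
  classical
  have h : ∀ x : ℂ, ∃ a : C.ι × ℝ, ∀ N : ℂ, (x, N) ∈ C.RP →
      C.A a.1 ≤ a.2 ∧ a.2 < C.B a.1 ∧ x = C.g a.1 a.2 ∧ N = ee a.2 := by
    intro x
    by_cases hx : ∃ N, (x, N) ∈ C.RP
    · obtain ⟨N, hN⟩ := hx
      have hN' := hN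
      obtain ⟨i, u, hu, e⟩ := hN'
      refine ⟨(i, u), fun N' hN' => ⟨hu.1, hu.2.1, congrArg Prod.fst e, ?_⟩⟩
      rw [rp_unique hN' hN]
      exact congrArg Prod.snd e
    · exact ⟨(Classical.arbitrary _, 0), fun N hN => absurd ⟨N, hN⟩ hx⟩
  choose pr hpr using h
  exact ⟨pr, fun x N => hpr x N⟩

/-- The label of a boundary point. -/
noncomputable def lab (C : CTab) (pr : ℂ → C.ι × ℝ) (x : ℂ) : C.ι × ℕ :=
  ((pr x).1, ⌊4 * ((pr x).2 - C.A (pr x).1)⌋₊)

lemma R_pos (C : CTab) (i : C.ι) (u : ℝ) : 0 < (C.crv i).R u :=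
  lt_of_lt_of_le C.r0_pos (C.le_R i u)

/-- Two regular points with the same label. -/
lemma same {pr : ℂ → C.ι × ℝ} (hpr : Par C pr) {x x' N N' : ℂ} (h : (x, N) ∈ C.RP)
    (h' : (x', N') ∈ C.RP) (hl : lab C pr x = lab C pr x') :
    0 ≤ dt N (x - x') ∧ (dt N (x - x') = 0 → x = x') := by
  obtain ⟨a1, a2, a3, a4⟩ := hpr x N h
  obtain ⟨b1, b2, b3, b4⟩ := hpr x' N' h'
  have l1 : (pr x).1 = (pr x').1 := by
    have := congrArg Prod.fst hl
    exact this
  have l2 : ⌊4 * ((pr x).2 - C.A (pr x).1)⌋₊ = ⌊4 * ((pr x').2 - C.A (pr x').1)⌋₊ := by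
    have := congrArg Prod.snd hl
    exact this
  rw [← l1] at b1 b3 l2
  set i := (pr x).1 with hi
  set u := (pr x).2 with hu
  set w := (pr x').2 with hw
  have hclose : |w - u| < 1 / 4 := by
    have f1 : ((⌊4 * (u - C.A i)⌋₊ : ℕ) : ℝ) ≤ 4 * (u - C.A i) := Nat.floor_le (by linarith)
    have f2 := Nat.lt_floor_add_one (4 * (u - C.A i))
    have f3 : ((⌊4 * (w - C.A i)⌋₊ : ℕ) : ℝ) ≤ 4 * (w - C.A i) := Nat.floor_le (by linarith)
    have f4 := Nat.lt_floor_add_one (4 * (w - C.A i))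
    rw [← l2] at f3 f4
    rw [abs_lt]
    constructor <;> linarith
  by_cases hne : w = u
  · have : x = x' := by rw [a3, b3, hne]
    rw [this]; simp
  · have hlt := behind (C.crv i) (R_pos C i) hclose hne
    have e : dt N (x - x') = dt (ee u) ((C.crv i).G u) - dt (ee u) ((C.crv i).G w) := by
      rw [← dt_sub_right, a4, a3, b3]
    rw [e]
    exact ⟨by linarith, fun h0 => by linarith⟩

lemma step_data {pr : ℂ → C.ι × ℝ} (hpr : Par C pr) {x y : ℂ × ℂ}
    (h : BStep C.Y C.RP True x y) :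
    ‖x.2‖ = 1 ∧ (x.1, ee (pr x.1).2) ∈ C.RP ∧ ∃ τ : ℝ, 0 < τ ∧ y.1 = x.1 + τ • x.2 ∧
      dt x.2 (ee (pr y.1).2) ≤ 0 ∧
      y.2 = x.2 - (2 * dt x.2 (ee (pr y.1).2)) • ee (pr y.1).2 := by
  obtain ⟨hn, N, M, τ, hN, hM, hτ, hy, -, -, hc, hr⟩ := h
  have e1 := (hpr _ _ hN).2.2.2
  have e2 := (hpr _ _ hM).2.2.2
  rw [← e1, ← e2]
  refine ⟨hn, hN, τ, hτ, ?_, ?_, ?_⟩
  · rw [hy, Complex.real_smul]
  · rcases hc with h | ⟨-, h⟩
    · exact h.le
    · exact h.le
  · rw [hr, Complex.real_smul]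

lemma uniq {pr : ℂ → C.ι × ℝ} (hpr : Par C pr) (z z' : ℕ → ℂ × ℂ) (p : ℕ) (hp : 0 < p)
    (hz : ∀ k, BStep C.Y C.RP True (z k) (z (k + 1)))
    (hz' : ∀ k, BStep C.Y C.RP True (z' k) (z' (k + 1)))
    (pz : ∀ k, z (k + p) = z k) (pz' : ∀ k, z' (k + p) = z' k)
    (hl : ∀ k, lab C pr (z k).1 = lab C pr (z' k).1) : z = z' := by
  have d := fun k => step_data hpr (hz k)
  have d' := fun k => step_data hpr (hz' k)
  choose d1 d2 τ d3 d4 d5 d6 using d
  choose e1 e2 τ' e3 e4 e5 e6 using d'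
  obtain ⟨k, hk1, hk2⟩ := meet (fun k => (z k).1) (fun k => (z k).2)
    (fun k => ee (pr (z k).1).2) (fun k => (z' k).1) (fun k => (z' k).2)
    (fun k => ee (pr (z' k).1).2) τ τ' d1 e1 d3 e3 d4 e4 d5 e5 d6 e6
    (fun k => (same hpr (d2 k) (e2 k) (hl k)).1)
    (fun k => (same hpr (e2 k) (d2 k) (hl k).symm).1)
    (fun k => (same hpr (d2 k) (e2 k) (hl k)).2) p hp
    (fun k => by simp only [pz]) (fun k => by simp only [pz])
    (fun k => by simp only [pz']) (fun k => by simp only [pz'])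
  have hk : z k = z' k := Prod.ext hk1 hk2
  have hfwd : ∀ m, z (k + m) = z' (k + m) := by
    intro m
    induction m with
    | zero => exact hk
    | succ m ih =>
      have h1 := hz (k + m)
      have h2 := hz' (k + m)
      rw [← ih] at h2
      exact det h1 h2
  have hper : ∀ j m, z (j + m * p) = z j := by
    intro j m
    induction m with
    | zero => simp
    | succ m ih => rw [add_mul, one_mul, ← add_assoc, pz, ih]
  have hper' : ∀ j m, z' (j + m * p) = z' j := by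
    intro j m
    induction m with
    | zero => simp
    | succ m ih => rw [add_mul, one_mul, ← add_assoc, pz', ih]
  funext j
  rw [← hper j k, ← hper' j k]
  have hle : k ≤ j + k * p := by nlinarith
  obtain ⟨m, hm⟩ := Nat.exists_eq_add_of_le hle
  rw [hm]
  exact hfwd m

/-- A periodic orbit with at most `n` points has the period `n!`. -/
lemma period {O : Set (ℂ × ℂ)} (h : BOrb C.Y C.RP True O) {n : ℕ} (hn : O.ncard ≤ n) :
    ∃ z : ℕ → ℂ × ℂ, (∀ k, BStep C.Y C.RP True (z k) (z (k + 1))) ∧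
      (∀ k, z (k + n.factorial) = z k) ∧ O = range z := by
  obtain ⟨z, p, hp, hz, pz, rfl⟩ := h
  refine ⟨z, hz, ?_, rfl⟩
  have hper : ∀ j m, z (j + m * p) = z j := by
    intro j m
    induction m with
    | zero => simp
    | succ m ih => rw [add_mul, one_mul, ← add_assoc, pz, ih]
  have hfin : (range z).Finite := by
    refine ((Set.finite_Iio p).image z).subset ?_
    rintro _ ⟨k, rfl⟩
    refine ⟨k % p, Nat.mod_lt _ hp, ?_⟩
    have := hper (k % p) (k / p)
    rw [← this, mul_comm, Nat.mod_add_div]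
  obtain ⟨a, ha, b, hb, hab, he⟩ : ∃ a ∈ Iic n, ∃ b ∈ Iic n, a ≠ b ∧ z a = z b := by
    refine Set.exists_ne_map_eq_of_ncard_lt_of_maps_to ?_ (fun a _ => mem_range_self a) hfin
    have : (Iic n : Set ℕ).ncard = n + 1 := by
      rw [← Finset.coe_Iic, Set.ncard_coe_finset, Nat.card_Iic]
    omega
  -- a period of size at most n
  have key : ∀ a b : ℕ, a < b → z a = z b → ∀ j, z (j + (b - a)) = z j := by
    intro a b hab he j
    have hfwd : ∀ m, z (a + m) = z (b + m) := by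
      intro m
      induction m with
      | zero => exact he
      | succ m ih =>
        have h1 := hz (a + m)
        have h2 := hz (b + m)
        rw [← ih] at h2
        exact det h1 h2
    rw [← hper j a, ← hper (j + (b - a)) a]
    have hle : a ≤ j + a * p := by nlinarith
    obtain ⟨m, hm⟩ := Nat.exists_eq_add_of_le hle
    have h2 : j + (b - a) + a * p = b + m := by omega
    rw [hm, h2]
    exact (hfwd m).symm
  obtain ⟨d, hd0, hdn, hd⟩ : ∃ d : ℕ, 0 < d ∧ d ≤ n ∧ ∀ j, z (j + d) = z j := by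
    rcases lt_or_gt_of_ne hab with h | h
    · exact ⟨b - a, by omega, by have : b ≤ n := hb; omega, key a b h he⟩
    · exact ⟨a - b, by omega, by have : a ≤ n := ha; omega, key b a h he.symm⟩
  obtain ⟨m, hm⟩ := Nat.dvd_factorial hd0 hdn
  have hper2 : ∀ j m, z (j + d * m) = z j := by
    intro j m
    induction m with
    | zero => simp
    | succ m ih => rw [mul_add, mul_one, ← add_assoc, hd, ih]
  intro k
  rw [hm]
  exact hper2 k m

theorem thm (C : CTab) : G_PERFIN C := by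
  classical
  intro n
  have := C.fin
  rcases isEmpty_or_nonempty C.ι with hemp | hne
  · refine Set.Finite.subset Set.finite_empty ?_
    rintro O ⟨⟨z, p, hp, hz, -, -⟩, -⟩
    obtain ⟨-, N, M, τ, ⟨i, -⟩, -⟩ := hz 0
    exact (hemp.false i).elim
  obtain ⟨pr, hpr⟩ := exists_par (C := C)
  -- the labels form a finite set
  set F : Set (C.ι × ℕ) := ⋃ i : C.ι, ({i} : Set C.ι) ×ˢ Iic ⌊4 * (C.B i - C.A i)⌋₊ with hF
  have hFfin : F.Finite := Set.finite_iUnion fun i => (Set.finite_singleton i).prod (Set.finite_Iic _)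
  have hlabF : ∀ x N, (x, N) ∈ C.RP → lab C pr x ∈ F := by
    intro x N hx
    obtain ⟨a1, a2, -, -⟩ := hpr x N hx
    rw [hF, mem_iUnion]
    refine ⟨(pr x).1, rfl, ?_⟩
    show ⌊4 * ((pr x).2 - C.A (pr x).1)⌋₊ ≤ ⌊4 * (C.B (pr x).1 - C.A (pr x).1)⌋₊
    exact Nat.floor_mono (by linarith)
  set P : Set (Set (ℂ × ℂ)) := {O | BOrb C.Y C.RP True O ∧ O.ncard ≤ n} with hP
  have hch : ∀ O : Set (ℂ × ℂ), ∃ z : ℕ → ℂ × ℂ, O ∈ P →
      (∀ k, BStep C.Y C.RP True (z k) (z (k + 1))) ∧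
      (∀ k, z (k + n.factorial) = z k) ∧ O = range z := by
    intro O
    by_cases hO : O ∈ P
    · obtain ⟨z, hz⟩ := period hO.1 hO.2
      exact ⟨z, fun _ => hz⟩
    · exact ⟨fun _ => 0, fun h => absurd h hO⟩
  choose z hz using hch
  set Φ : Set (ℂ × ℂ) → (Fin n.factorial → C.ι × ℕ) := fun O k => lab C pr (z O k).1 with hΦ
  have hfinpi : (Set.pi univ (fun _ : Fin n.factorial => F)).Finite := Set.Finite.pi fun _ => hFfin
  refine Set.Finite.of_finite_image (f := Φ) (hfinpi.subset ?_) ?_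
  · rintro _ ⟨O, hO, rfl⟩
    intro k _
    obtain ⟨-, N, M, τ, hN, -⟩ := (hz O hO).1 k
    exact hlabF _ N hN
  · intro O hO O' hO' heq
    obtain ⟨h1, h2, h3⟩ := hz O hO
    obtain ⟨h1', h2', h3'⟩ := hz O' hO'
    have hper : ∀ j m, z O (j + m * n.factorial) = z O j := by
      intro j m
      induction m with
      | zero => simp
      | succ m ih => rw [add_mul, one_mul, ← add_assoc, h2, ih]
    have hper' : ∀ j m, z O' (j + m * n.factorial) = z O' j := by
      intro j m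
      induction m with
      | zero => simp
      | succ m ih => rw [add_mul, one_mul, ← add_assoc, h2', ih]
    have hl : ∀ k, lab C pr (z O k).1 = lab C pr (z O' k).1 := by
      intro k
      have hk := congrFun heq ⟨k % n.factorial, Nat.mod_lt _ n.factorial_pos⟩
      simp only [hΦ] at hk
      have e1 := hper (k % n.factorial) (k / n.factorial)
      have e2 := hper' (k % n.factorial) (k / n.factorial)
      have e3 : k % n.factorial + k / n.factorial * n.factorial = k := by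
        rw [mul_comm]; exact Nat.mod_add_div _ _
      rw [e3] at e1 e2
      rw [e1, e2]
      exact hk
    have := uniq hpr (z O) (z O') n.factorial n.factorial_pos h1 h1' h2 h2' hl
    rw [h3, h3', this]

end Pool.Agent.Helper42.DB.PkPERFIN
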